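import Pool.Agent.H563R5.HO.Loc
import Pool.Agent.H907R2.HO.Hopf
import Pool.Agent.H758R2.HO.Bridge2

/-!
ROOM HO (helper563): the slice statements, and the final theorem without hypotheses.
-/

noncomputable section

namespace HopfPP

theorem loc0 : LOC0 := by
  obtain ⟨t0, ht0, h⟩ := loc0_pos
  exact ⟨t0, ht0, fun μ O r d s G hμ hO h1 h2 hs hne =>
    h μ hμ O hO r d s G h1 h2 hs.1 hs.2.1 hs.2.2.1 hs.2.2.2.1 hs.2.2.2.2 hne⟩

theorem loc1 : LOC1 := by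
  obtain ⟨μ1, hμ1, h⟩ := loc1_pos
  refine ⟨μ1, hμ1, fun μ h0 h1 => ?_⟩
  obtain ⟨t0, ht0, h⟩ := h μ h0 h1
  exact ⟨t0, ht0, fun e O r d s G he0 he1 hO h1 h2 hs =>
    h e he0 he1 O hO r d s G h1 h2 hs.1 hs.2.1 hs.2.2.1 hs.2.2.2.1 hs.2.2.2.2⟩

end HopfPP

namespace H563H

/-- **The Hopf problem**: `S² × S²` carries a Riemannian metric of positive sectional curvature. -/
theorem hopf_yes : Pool.Agent.H893R5.HO.HopfYes :=
  H907H.hopfYes_loc H758H.bridge HopfPP.loc0 HopfPP.loc1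

end H563H
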