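import Pool.Agent.H754R2.HO.Fro

/-!
ROOM HO (helper563): local positivity of the polynomial `PP` near its zero set, in the slice
`x = e₁`, `n = e₃`, uniformly in the rotation (LOC0, LOC1).
-/

open Set Filter
open scoped Topology
open H563H

noncomputable section

namespace HopfPP

namespace LocH

/-- parameters: `O, μ, e, r, d, s, g, h` -/
abbrev Th := (Fin 3 → V ℝ) × ℝ × ℝ × V ℝ × V ℝ × ℝ × V ℝ × V ℝ

/-- rotation -/
def pO (θ : Th) : Fin 3 → V ℝ := θ.1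
/-- anisotropy -/
def pμ (θ : Th) : ℝ := θ.2.1
/-- normalised twist -/
def pe (θ : Th) : ℝ := θ.2.2.1
/-- normalised tilt -/
def pr' (θ : Th) : V ℝ := θ.2.2.2.1
/-- normalised tilt -/
def pd (θ : Th) : V ℝ := θ.2.2.2.2.1
/-- normalised tilt -/
def ps (θ : Th) : ℝ := θ.2.2.2.2.2.1
/-- normalised auxiliary vector -/
def pg (θ : Th) : V ℝ := θ.2.2.2.2.2.2.1
/-- normalised auxiliary vector -/
def ph (θ : Th) : V ℝ := θ.2.2.2.2.2.2.2

theorem cO : Continuous pO := continuous_fst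
theorem cμ : Continuous pμ := by unfold pμ; fun_prop
theorem ce : Continuous pe := by unfold pe; fun_prop
theorem cr' : Continuous pr' := by unfold pr'; fun_prop
theorem cd : Continuous pd := by unfold pd; fun_prop
theorem cs : Continuous ps := by unfold ps; fun_prop
theorem cg : Continuous pg := by unfold pg; fun_prop
theorem ch : Continuous ph := by unfold ph; fun_prop

theorem cr'j (j : Fin 3) : Continuous fun θ : Th => pr' θ j := (continuous_apply j).comp cr'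
theorem cdj (j : Fin 3) : Continuous fun θ : Th => pd θ j := (continuous_apply j).comp cd
theorem cgj (j : Fin 3) : Continuous fun θ : Th => pg θ j := (continuous_apply j).comp cg
theorem chj (j : Fin 3) : Continuous fun θ : Th => ph θ j := (continuous_apply j).comp ch

/-- sum of squares of the normalised variables -/
def nrm2 (θ : Th) : ℝ := pe θ ^ 2 + dt (pr' θ) (pr' θ) + dt (pd θ) (pd θ) + ps θ ^ 2 +
  dt (pg θ) (pg θ) + dt (ph θ) (ph θ)

theorem cont_nrm2 : Continuous nrm2 := by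
  have h1 := ce
  have h2 := cr'
  have h3 := cd
  have h4 := cs
  have h5 := cg
  have h6 := ch
  unfold nrm2 dt
  fun_prop

theorem cont_W (i j : Fin 3) : Continuous fun θ : Th => Wr (pμ θ) (pO θ) i j := by
  have h1 : Continuous pO := cO
  have h2 : Continuous pμ := cμ
  fin_cases i <;> fin_cases j <;> simp only [Wr, symm3, Matrix.cons_val_zero, Matrix.cons_val_one,
    Matrix.cons_val, Fin.zero_eta, Fin.mk_one, Fin.reduceFinMk] <;> fun_prop

theorem cont_Q {q : Th → ℝ} (hq : Continuous q) (i j : Fin 3) :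
    Continuous fun θ : Th => Qr (q θ) (pO θ) i j := by
  have h1 : Continuous pO := cO
  fin_cases i <;> fin_cases j <;> simp only [Qr, symm3, Matrix.cons_val_zero, Matrix.cons_val_one,
    Matrix.cons_val, Fin.zero_eta, Fin.mk_one, Fin.reduceFinMk] <;> fun_prop

theorem cont_v (i : Fin 3) : Continuous fun θ : Th => vr (pO θ) i := by
  have h1 : Continuous pO := cO
  fin_cases i <;> simp only [vr, Matrix.cons_val_zero, Matrix.cons_val_one,
    Matrix.cons_val, Fin.zero_eta, Fin.mk_one, Fin.reduceFinMk] <;> fun_prop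

/-- the second order coefficient without quadratic term -/
def Aco (θ : Th) : ℝ :=
  (PP (DT (Wr (pμ θ) (pO θ)) (fun _ => 0) (pe θ) (vr (pO θ))) (tv ![1, 0, 0] 0 0)
    (aT (pr' θ)) (bT (ps θ) (pd θ)) (gTT (pg θ) (ph θ))).c2

/-- the second order coefficient -/
def Psi (θ : Th) : ℝ := Aco θ + pe θ ^ 2 * k4 (pO θ 2) / 32

/-- a continuous function as a continuous family of truncated series -/
def ctE (c : Th → T3 ℝ) (h0 : Continuous fun θ => (c θ).c0) (h1 : Continuous fun θ => (c θ).c1)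
    (h2 : Continuous fun θ => (c θ).c2) : contT3 Th := ⟨c, h0, h1, h2⟩

theorem cont_Aco : Continuous Aco := by
  obtain ⟨D, hD⟩ : ∃ D : Dat (contT3 Th), ∀ θ, mapD (evT θ) D =
      DT (Wr (pμ θ) (pO θ)) (fun _ => 0) (pe θ) (vr (pO θ)) :=
    ⟨⟨fun i j => ctE (fun θ => ⟨Wr (pμ θ) (pO θ) i j, 0, 0⟩) (cont_W i j)
        continuous_const continuous_const, fun i j => 0,
      ctE (fun θ => ⟨0, pe θ, 0⟩) continuous_const ce continuous_const,
      fun j => ctE (fun θ => ⟨vr (pO θ) j, 0, 0⟩) (cont_v j) continuous_const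
        continuous_const⟩, fun θ => rfl⟩
  obtain ⟨x, hx⟩ : ∃ x : V (contT3 Th), ∀ θ, mapV (evT θ) x = tv ![1, 0, 0] 0 0 :=
    ⟨fun j => ctE (fun θ => ⟨(![1, 0, 0] : V ℝ) j, 0, 0⟩) continuous_const
        continuous_const continuous_const, fun θ => rfl⟩
  obtain ⟨a, ha⟩ : ∃ a : V6 (contT3 Th), ∀ θ, map6 (evT θ) a = aT (pr' θ) :=
    ⟨(fun j => ctE (fun θ => ⟨(![0, 0, 1] : V ℝ) j, 0, 0⟩) continuous_const
        continuous_const continuous_const,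
      fun j => ctE (fun θ => ⟨0, pr' θ j, 0⟩) continuous_const (cr'j j) continuous_const),
      fun θ => rfl⟩
  obtain ⟨b, hb⟩ : ∃ b : V6 (contT3 Th), ∀ θ, map6 (evT θ) b = bT (ps θ) (pd θ) :=
    ⟨(fun j => ctE (fun θ => ⟨0, (![0, -ps θ, 0] : V ℝ) j, 0⟩) continuous_const
        (by have := cs; fin_cases j <;> simp <;> fun_prop) continuous_const,
      fun j => ctE (fun θ => ⟨(![0, 0, 1] : V ℝ) j, pd θ j, 0⟩) continuous_const (cdj j)
        continuous_const), fun θ => rfl⟩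
  obtain ⟨G, hG⟩ : ∃ G : V6 (contT3 Th), ∀ θ, map6 (evT θ) G = gTT (pg θ) (ph θ) :=
    ⟨(fun j => ctE (fun θ => ⟨0, pg θ j, 0⟩) continuous_const (cgj j) continuous_const,
      fun j => ctE (fun θ => ⟨0, ph θ j, 0⟩) continuous_const (chj j) continuous_const),
      fun θ => rfl⟩
  have h := contT3_c2 (PP D x a b G)
  have e : Aco = fun θ => (evT θ (PP D x a b G)).c2 := by
    funext θ
    rw [map_PP, hD, hx, ha, hb, hG, Aco]
  rw [e]
  exact h

theorem cont_Psi : Continuous Psi := by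
  have h1 := cont_Aco
  have h2 := ce
  have h3 : Continuous pO := cO
  unfold Psi k4
  fun_prop

/-! ### Transfer from the second order coefficient -/

section transfer

variable {S : Set Th}

theorem apC {a : Th → ℝ} (ha : Bdd S a) :
    Approx S (fun θ _ => a θ) (fun θ => ⟨a θ, 0, 0⟩) := Approx.of_bdd ha

theorem apT {a : Th → ℝ} (ha : Bdd S a) :
    Approx S (fun θ t => t * a θ) (fun θ => ⟨0, a θ, 0⟩) := Approx.of_mul_t ha

theorem Qr_lin (κ s : ℝ) (O : Fin 3 → V ℝ) (i j : Fin 3) :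
    Qr (s * κ) O i j = s * Qr κ O i j := by
  fin_cases i <;> fin_cases j <;> simp [Qr, symm3] <;> ring

theorem apQ {q : Th → ℝ} (i j : Fin 3) (hq : Bdd S fun θ => Qr (q θ) (pO θ) i j) :
    Approx S (fun θ t => Qr (t ^ 2 * q θ) (pO θ) i j) (fun θ => ⟨0, 0, Qr (q θ) (pO θ) i j⟩) := by
  have h := Approx.of_val (S := S) (c := fun θ => ⟨0, 0, Qr (q θ) (pO θ) i j⟩) (Bdd.const S 0)
    (Bdd.const S 0) hq
  have e : (fun θ t => Qr (t ^ 2 * q θ) (pO θ) i j) =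
      fun θ t => T3.val ⟨0, 0, Qr (q θ) (pO θ) i j⟩ t := by
    funext θ t
    rw [Qr_lin]
    simp only [T3.val]
    ring
  rw [e]
  exact h

theorem apL (j : Fin 3) {d : Th → V ℝ} (hd : Bdd S fun θ => d θ j) (c : V ℝ) :
    Approx S (fun θ t => c j + t * d θ j) (fun θ => ⟨c j, d θ j, 0⟩) := by
  have h := Approx.of_val (S := S) (c := fun θ => ⟨c j, d θ j, 0⟩) (Bdd.const S (c j))
    hd (Bdd.const S 0)
  have e : (fun θ t => c j + t * d θ j) = fun θ t => T3.val ⟨c j, d θ j, 0⟩ t := by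
    funext θ t
    simp only [T3.val]
    ring
  rw [e]
  exact h

/-- the second order coefficient of the full polynomial -/
theorem c2_full {O : Fin 3 → V ℝ} (hO : Rotn O) (μ q e s : ℝ) (r d g h : V ℝ)
    (hq : μ ^ 2 * q = e ^ 2 / 128) :
    (PP (DT (Wr μ O) (Qr q O) e (vr O)) (tv ![1, 0, 0] 0 0) (aT r) (bT s d) (gTT g h)).c2 =
      Psi (O, μ, e, r, d, s, g, h) := by
  have h1 := c2_Q (1 + μ * (2 * (O 0 0 * O 0 2))) (μ * (O 0 0 * O 1 2 + O 0 2 * O 1 0))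
    (μ * (O 0 0 * O 2 2 + O 0 2 * O 2 0)) (1 + μ * (2 * (O 1 0 * O 1 2)))
    (μ * (O 1 0 * O 2 2 + O 1 2 * O 2 0)) (1 + μ * (2 * (O 2 0 * O 2 2)))
    (q * (3 * (O 0 0 * O 0 0) - O 0 2 * O 0 2)) (q * (3 * (O 0 0 * O 1 0) - O 0 2 * O 1 2))
    (q * (3 * (O 0 0 * O 2 0) - O 0 2 * O 2 2)) (q * (3 * (O 1 0 * O 1 0) - O 1 2 * O 1 2))
    (q * (3 * (O 1 0 * O 2 0) - O 1 2 * O 2 2)) (q * (3 * (O 2 0 * O 2 0) - O 2 2 * O 2 2))
    e (vr O) r d g h s
  rw [← KQv_e3] at h1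
  have h2 := KQ_Dr hO μ q
  have h3 : KQv (symm3 (1 + μ * (2 * (O 0 0 * O 0 2))) (μ * (O 0 0 * O 1 2 + O 0 2 * O 1 0))
    (μ * (O 0 0 * O 2 2 + O 0 2 * O 2 0)) (1 + μ * (2 * (O 1 0 * O 1 2)))
    (μ * (O 1 0 * O 2 2 + O 1 2 * O 2 0)) (1 + μ * (2 * (O 2 0 * O 2 2))))
    (symm3 (q * (3 * (O 0 0 * O 0 0) - O 0 2 * O 0 2)) (q * (3 * (O 0 0 * O 1 0) - O 0 2 * O 1 2))
    (q * (3 * (O 0 0 * O 2 0) - O 0 2 * O 2 2)) (q * (3 * (O 1 0 * O 1 0) - O 1 2 * O 1 2))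
    (q * (3 * (O 1 0 * O 2 0) - O 1 2 * O 2 2)) (q * (3 * (O 2 0 * O 2 0) - O 2 2 * O 2 2)))
    ![0, 0, 1] = μ ^ 2 * q * k4 (O 2) := h2
  rw [h3, hq] at h1
  refine h1.trans ?_
  simp only [Psi, Aco, pO, pμ, pe, pr', pd, ps, pg, ph, Wr]
  ring

theorem main_transfer (hS : IsCompact S) (hrot : ∀ θ ∈ S, Rotn (pO θ)) {q : Th → ℝ}
    (hq : Continuous q) (hqe : ∀ θ ∈ S, pμ θ ^ 2 * q θ = pe θ ^ 2 / 128)
    (hpos : ∀ θ ∈ S, 0 < Psi θ) :
    ∃ t0 > 0, ∀ θ ∈ S, ∀ t, 0 < t → t < t0 →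
      0 < PP (Dr (pμ θ) (t ^ 2 * q θ) (t * pe θ) (pO θ)) ![1, 0, 0]
        (![0, 0, 1], fun j => t * pr' θ j)
        (fun j => t * (![0, -ps θ, 0] : V ℝ) j, fun j => (![0, 0, 1] : V ℝ) j + t * pd θ j)
        (fun j => t * pg θ j, fun j => t * ph θ j) := by
  have bd : ∀ {f : Th → ℝ}, Continuous f → Bdd S f := fun hf =>
    Bdd.of_continuousOn hS hf.continuousOn
  -- the data over `approxRing S`
  let D : Dat (approxRing S) :=
    ⟨fun i j => (apC (bd (cont_W i j))).mk', fun i j => (apQ i j (bd (cont_Q hq i j))).mk',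
      (apT (bd ce)).mk', fun j => (apC (bd (cont_v j))).mk'⟩
  let x : V (approxRing S) := fun j => (apC (Bdd.const S ((![1, 0, 0] : V ℝ) j))).mk'
  let a : V6 (approxRing S) := (fun j => (apC (Bdd.const S ((![0, 0, 1] : V ℝ) j))).mk',
    fun j => (apT (bd (cr'j j))).mk')
  have hs : ∀ j : Fin 3, Continuous fun θ => (![0, -ps θ, 0] : V ℝ) j := by
    have := cs
    intro j
    fin_cases j <;> simp <;> fun_prop
  let b : V6 (approxRing S) := (fun j => (apT (bd (hs j))).mk',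
    fun j => (apL j (bd (cdj j)) ![0, 0, 1]).mk')
  let G : V6 (approxRing S) := (fun j => (apT (bd (cgj j))).mk', fun j => (apT (bd (chj j))).mk')
  let P : approxRing S := PP D x a b G
  have hC : ∀ θ, evC S θ P = PP (DT (Wr (pμ θ) (pO θ)) (Qr (q θ) (pO θ)) (pe θ) (vr (pO θ)))
      (tv ![1, 0, 0] 0 0) (aT (pr' θ)) (bT (ps θ) (pd θ)) (gTT (pg θ) (ph θ)) := by
    intro θ
    show evC S θ (PP D x a b G) = _
    rw [map_PP]
    rfl
  have hF : ∀ θ t, evF S θ t P = PP (Dr (pμ θ) (t ^ 2 * q θ) (t * pe θ) (pO θ)) ![1, 0, 0]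
        (![0, 0, 1], fun j => t * pr' θ j)
        (fun j => t * (![0, -ps θ, 0] : V ℝ) j, fun j => (![0, 0, 1] : V ℝ) j + t * pd θ j)
        (fun j => t * pg θ j, fun j => t * ph θ j) := by
    intro θ t
    show evF S θ t (PP D x a b G) = _
    rw [map_PP]
    rfl
  have hc2 : ∀ θ ∈ S, (evC S θ P).c2 = Psi θ := by
    intro θ hθ
    rw [hC]
    exact c2_full (hrot θ hθ) (pμ θ) (q θ) (pe θ) (ps θ) (pr' θ) (pd θ) (pg θ) (ph θ) (hqe θ hθ)
  obtain ⟨κ, hκ, hκ'⟩ : ∃ κ > 0, ∀ θ ∈ S, κ ≤ Psi θ := by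
    rcases S.eq_empty_or_nonempty with h | h
    · exact ⟨1, one_pos, fun θ hθ => by rw [h] at hθ; exact hθ.elim⟩
    · obtain ⟨θ₀, h₀, hmin⟩ := hS.exists_isMinOn h cont_Psi.continuousOn
      exact ⟨Psi θ₀, hpos θ₀ h₀, fun θ hθ => hmin hθ⟩
  obtain ⟨t0, ht0, h⟩ := approxRing_pos P
    (fun θ _ => by rw [hC]; exact (c01_eq _ _ _ _ _ _ _ _ _ _ _ _ _ _).1)
    (fun θ _ => by rw [hC]; exact (c01_eq _ _ _ _ _ _ _ _ _ _ _ _ _ _).2) hκ
    (fun θ hθ => by rw [hc2 θ hθ]; exact hκ' θ hθ)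
  refine ⟨t0, ht0, fun θ hθ t h1 h2 => ?_⟩
  have := h θ hθ t h1 h2
  rwa [hF] at this

end transfer

/-! ### Positivity of the second order coefficient -/

/-- the compact set of normalised parameters -/
def KK1 : Set Th := {θ | Rotn (pO θ) ∧ nrm2 θ = 1 ∧ |pr' θ 2| ≤ 1 / 4 ∧ |pd θ 2| ≤ 1 / 4 ∧
  |pμ θ| ≤ 1}

theorem Rotn_entry {O : Fin 3 → V ℝ} (hO : Rotn O) (i j : Fin 3) : |O i j| ≤ 1 := by
  have h : ∀ a : V ℝ, dt a a = 1 → ∀ j, |a j| ≤ 1 := by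
    intro a ha j
    rw [abs_le_one_iff_mul_self_le_one]
    simp only [dt] at ha
    fin_cases j <;> simp <;> nlinarith [mul_self_nonneg (a 0), mul_self_nonneg (a 1),
      mul_self_nonneg (a 2)]
  fin_cases i
  · exact h _ hO.o00 j
  · exact h _ hO.o11 j
  · exact h _ hO.o22 j

theorem isClosed_Rotn : IsClosed {θ : Th | Rotn (pO θ)} := by
  have e : {θ : Th | Rotn (pO θ)} = {θ : Th | dt (pO θ 0) (pO θ 0) = 1 ∧
      dt (pO θ 1) (pO θ 1) = 1 ∧ dt (pO θ 2) (pO θ 2) = 1 ∧ dt (pO θ 0) (pO θ 1) = 0 ∧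
      dt (pO θ 0) (pO θ 2) = 0 ∧ dt (pO θ 1) (pO θ 2) = 0 ∧ cx (pO θ 0) (pO θ 1) = pO θ 2 ∧
      cx (pO θ 1) (pO θ 2) = pO θ 0 ∧ cx (pO θ 2) (pO θ 0) = pO θ 1} := by
    ext θ
    constructor
    · rintro ⟨h1, h2, h3, h4, h5, h6, h7, h8, h9⟩
      exact ⟨h1, h2, h3, h4, h5, h6, h7, h8, h9⟩
    · rintro ⟨h1, h2, h3, h4, h5, h6, h7, h8, h9⟩
      exact ⟨h1, h2, h3, h4, h5, h6, h7, h8, h9⟩
  rw [e]
  have c1 : Continuous pO := cO
  have cd : ∀ i j, Continuous fun θ : Th => dt (pO θ i) (pO θ j) := by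
    intro i j
    unfold dt
    fun_prop
  have ci : ∀ i, Continuous fun θ : Th => pO θ i := by
    intro i
    fun_prop
  have cc : ∀ i j, Continuous fun θ : Th => cx (pO θ i) (pO θ j) := by
    intro i j
    refine continuous_pi fun k => ?_
    fin_cases k <;> simp <;> fun_prop
  exact (isClosed_eq (cd _ _) continuous_const).inter <|
    (isClosed_eq (cd _ _) continuous_const).inter <|
    (isClosed_eq (cd _ _) continuous_const).inter <|
    (isClosed_eq (cd _ _) continuous_const).inter <|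
    (isClosed_eq (cd _ _) continuous_const).inter <|
    (isClosed_eq (cd _ _) continuous_const).inter <|
    (isClosed_eq (cc _ _) (ci _)).inter <|
    (isClosed_eq (cc _ _) (ci _)).inter (isClosed_eq (cc _ _) (ci _))

theorem nrm2_entries {θ : Th} (h : nrm2 θ ≤ 1) : |pe θ| ≤ 1 ∧ (∀ j, |pr' θ j| ≤ 1) ∧
    (∀ j, |pd θ j| ≤ 1) ∧ |ps θ| ≤ 1 ∧ (∀ j, |pg θ j| ≤ 1) ∧ ∀ j, |ph θ j| ≤ 1 := by
  simp only [nrm2, dt] at h
  have q1 := mul_self_nonneg (pr' θ 0)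
  have q2 := mul_self_nonneg (pr' θ 1)
  have q3 := mul_self_nonneg (pr' θ 2)
  have q4 := mul_self_nonneg (pd θ 0)
  have q5 := mul_self_nonneg (pd θ 1)
  have q6 := mul_self_nonneg (pd θ 2)
  have q7 := mul_self_nonneg (pg θ 0)
  have q8 := mul_self_nonneg (pg θ 1)
  have q9 := mul_self_nonneg (pg θ 2)
  have q10 := mul_self_nonneg (ph θ 0)
  have q11 := mul_self_nonneg (ph θ 1)
  have q12 := mul_self_nonneg (ph θ 2)
  have q13 := sq_nonneg (pe θ)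
  have q14 := sq_nonneg (ps θ)
  refine ⟨?_, fun j => ?_, fun j => ?_, ?_, fun j => ?_, fun j => ?_⟩
  · rw [abs_le_one_iff_mul_self_le_one]; linarith
  · rw [abs_le_one_iff_mul_self_le_one]; fin_cases j <;> simp <;> linarith
  · rw [abs_le_one_iff_mul_self_le_one]; fin_cases j <;> simp <;> linarith
  · rw [abs_le_one_iff_mul_self_le_one]; linarith
  · rw [abs_le_one_iff_mul_self_le_one]; fin_cases j <;> simp <;> linarith
  · rw [abs_le_one_iff_mul_self_le_one]; fin_cases j <;> simp <;> linarith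

theorem isCompact_KK1 : IsCompact KK1 := by
  refine Metric.isCompact_of_isClosed_isBounded ?_ ?_
  · have h1 := cont_nrm2
    have h2 := cr'j 2
    have h3 := cdj 2
    have h4 := cμ
    exact isClosed_Rotn.inter <| (isClosed_eq h1 continuous_const).inter <|
      (isClosed_le h2.abs continuous_const).inter <|
      (isClosed_le h3.abs continuous_const).inter (isClosed_le h4.abs continuous_const)
  · refine (Metric.isBounded_closedBall (x := (0 : Th)) (r := 1)).subset ?_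
    rintro θ ⟨hO, hn, -, -, hμ⟩
    obtain ⟨h1, h2, h3, h4, h5, h6⟩ := nrm2_entries hn.le
    rw [mem_closedBall_zero_iff]
    have hv : ∀ a : V ℝ, (∀ j, |a j| ≤ 1) → ‖a‖ ≤ 1 := fun a ha =>
      (pi_norm_le_iff_of_nonneg zero_le_one).2 fun j => by rw [Real.norm_eq_abs]; exact ha j
    refine norm_prod_le_iff.2 ⟨?_, norm_prod_le_iff.2 ⟨?_, norm_prod_le_iff.2 ⟨?_,
      norm_prod_le_iff.2 ⟨?_, norm_prod_le_iff.2 ⟨?_, norm_prod_le_iff.2 ⟨?_,
      norm_prod_le_iff.2 ⟨?_, ?_⟩⟩⟩⟩⟩⟩⟩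
    · refine (pi_norm_le_iff_of_nonneg zero_le_one).2 fun i => hv _ fun j => ?_
      exact Rotn_entry hO i j
    · rw [Real.norm_eq_abs]; exact hμ
    · rw [Real.norm_eq_abs]; exact h1
    · exact hv _ h2
    · exact hv _ h3
    · rw [Real.norm_eq_abs]; exact h4
    · exact hv _ h5
    · exact hv _ h6

theorem Wr_zero (O : Fin 3 → V ℝ) : Wr 0 O = symm3 1 0 0 1 0 1 := by
  simp [Wr]

theorem sum_zero {a1 a2 a3 a4 a5 a6 a7 a8 a9 a10 a11 a12 a13 a14 a15 : ℝ} (h1 : 0 ≤ a1)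
    (h2 : 0 ≤ a2) (h3 : 0 ≤ a3) (h4 : 0 ≤ a4) (h5 : 0 ≤ a5) (h6 : 0 ≤ a6) (h7 : 0 ≤ a7)
    (h8 : 0 ≤ a8) (h9 : 0 ≤ a9) (h10 : 0 ≤ a10) (h11 : 0 ≤ a11) (h12 : 0 ≤ a12) (h13 : 0 ≤ a13)
    (h14 : 0 ≤ a14) (h15 : 0 ≤ a15)
    (h : a1 + (a2 + a3) + (a4 + a5) + 3 * ((a6 + a7 + a8) + (a9 + a10 + a11) +
      (a12 + a13 + a14)) + a15 ≤ 0) : a1 = 0 ∧ a2 = 0 ∧ a3 = 0 ∧ a4 = 0 ∧ a5 = 0 ∧ a6 = 0 ∧
      a7 = 0 ∧ a8 = 0 ∧ a9 = 0 ∧ a10 = 0 ∧ a11 = 0 ∧ a15 = 0 := by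
  refine ⟨?_, ?_, ?_, ?_, ?_, ?_, ?_, ?_, ?_, ?_, ?_, ?_⟩ <;> linarith

theorem Psi_zero_pos {θ : Th} (hθ : θ ∈ KK1) (hμ : pμ θ = 0) : 0 < Psi θ := by
  obtain ⟨hO, hn, hr2, hd2, -⟩ := hθ
  have hS := S_pos hO.o22
  rw [Psi, Aco, hμ, Wr_zero, c2_one]
  have hv : vr (pO θ) 2 = pO θ 2 0 + pO θ 2 1 := rfl
  rw [hv]
  set e := pe θ
  set r := pr' θ
  set d := pd θ
  set s := ps θ
  set g := pg θ
  set h := ph θ
  set A := pO θ 2 0 + pO θ 2 1
  set K := k4 (pO θ 2)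
  have hn' : e ^ 2 + dt r r + dt d d + s ^ 2 + dt g g + dt h h = 1 := hn
  simp only [dt] at hn'
  by_contra hcon
  have hcon' := not_lt.mp hcon
  have he0 : 0 ≤ e ^ 2 * (A ^ 2 + 1 / 32 * K) := mul_nonneg (sq_nonneg e) hS.le
  have t1 := sq_nonneg s
  have t2 := sq_nonneg (r 0)
  have t3 := sq_nonneg (r 1)
  have t4 := sq_nonneg (s + r 1 - d 1)
  have t5 := sq_nonneg (r 0 - d 0)
  have t6 := sq_nonneg (g 0 - s)
  have t7 := sq_nonneg (g 1)
  have t8 := sq_nonneg (g 2)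
  have t9 := sq_nonneg (h 0 - r 1)
  have t10 := sq_nonneg (h 1 + r 0)
  have t11 := sq_nonneg (h 2)
  have t12 := sq_nonneg (g 0 + h 0 - 3 * s - 3 * r 1 + d 1)
  have t13 := sq_nonneg (g 1 + h 1 + 3 * r 0 - d 0 + e * A)
  have t14 := sq_nonneg (g 2 + h 2)
  have hE : (e * A) ^ 2 + e ^ 2 * K / 32 = e ^ 2 * (A ^ 2 + 1 / 32 * K) := by ring
  obtain ⟨z1, z2, z3, z4, z5, z6, z7, z8, z9, z10, z11, z12⟩ := sum_zero t1 t2 t3 t4 t5 t6 t7 t8 t9
    t10 t11 t12 t13 t14 he0 (by rw [← hE]; linarith)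
  have hs : s = 0 := pow_eq_zero_iff two_ne_zero |>.1 z1
  have hr0 : r 0 = 0 := pow_eq_zero_iff two_ne_zero |>.1 z2
  have hr1 : r 1 = 0 := pow_eq_zero_iff two_ne_zero |>.1 z3
  have hd1 : s + r 1 - d 1 = 0 := pow_eq_zero_iff two_ne_zero |>.1 z4
  have hd0 : r 0 - d 0 = 0 := pow_eq_zero_iff two_ne_zero |>.1 z5
  have hg0 : g 0 - s = 0 := pow_eq_zero_iff two_ne_zero |>.1 z6
  have hg1 : g 1 = 0 := pow_eq_zero_iff two_ne_zero |>.1 z7
  have hg2 : g 2 = 0 := pow_eq_zero_iff two_ne_zero |>.1 z8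
  have hh0 : h 0 - r 1 = 0 := pow_eq_zero_iff two_ne_zero |>.1 z9
  have hh1 : h 1 + r 0 = 0 := pow_eq_zero_iff two_ne_zero |>.1 z10
  have hh2 : h 2 = 0 := pow_eq_zero_iff two_ne_zero |>.1 z11
  have he : e ^ 2 * (A ^ 2 + 1 / 32 * K) = 0 := z12
  have he' : e = 0 := by
    rcases mul_eq_zero.1 he with h1 | h1
    · exact pow_eq_zero_iff two_ne_zero |>.1 h1
    · exact absurd h1 hS.ne'
  have hd1' : d 1 = 0 := by rw [hs, hr1] at hd1; linarith
  have hd0' : d 0 = 0 := by rw [hr0] at hd0; linarith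
  have hg0' : g 0 = 0 := by rw [hs] at hg0; linarith
  have hh0' : h 0 = 0 := by rw [hr1] at hh0; linarith
  have hh1' : h 1 = 0 := by rw [hr0] at hh1; linarith
  rw [hs, hr0, hr1, hd1', hd0', hg0', hg1, hg2, hh0', hh1', hh2, he'] at hn'
  have a1 : r 2 * r 2 ≤ 1 / 4 * (1 / 4) := by
    rw [← abs_mul_abs_self]
    exact mul_le_mul hr2 hr2 (abs_nonneg _) (by norm_num)
  have a2 : d 2 * d 2 ≤ 1 / 4 * (1 / 4) := by
    rw [← abs_mul_abs_self]
    exact mul_le_mul hd2 hd2 (abs_nonneg _) (by norm_num)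
  clear t1 t2 t3 t4 t5 t6 t7 t8 t9 t10 t11 t12 t13 t14 he0 hE hcon hcon' hS
  linarith

/-- uniform positivity for small anisotropy -/
theorem exists_mu : ∃ μ1 > 0, μ1 ≤ 1 ∧ ∀ θ ∈ KK1, |pμ θ| ≤ μ1 → 0 < Psi θ := by
  have hK : IsCompact (KK1 ∩ {θ | Psi θ ≤ 0}) :=
    isCompact_KK1.inter_right (isClosed_le cont_Psi continuous_const)
  rcases (KK1 ∩ {θ | Psi θ ≤ 0}).eq_empty_or_nonempty with h | h
  · refine ⟨1, one_pos, le_rfl, fun θ hθ _ => ?_⟩
    by_contra hcon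
    have : θ ∈ KK1 ∩ {θ | Psi θ ≤ 0} := ⟨hθ, not_lt.mp hcon⟩
    rw [h] at this
    exact this
  · obtain ⟨θ₀, h₀, hmin⟩ := hK.exists_isMinOn h (cμ.abs).continuousOn
    have hp : 0 < |pμ θ₀| := by
      rw [abs_pos]
      intro h0
      exact absurd (Psi_zero_pos h₀.1 h0) (not_lt.mpr h₀.2)
    have hle : |pμ θ₀| ≤ 1 := h₀.1.2.2.2.2
    refine ⟨|pμ θ₀| / 2, by positivity, by linarith, fun θ hθ hμ => ?_⟩
    by_contra hcon
    have h1 : θ ∈ KK1 ∩ {θ | Psi θ ≤ 0} := ⟨hθ, not_lt.mp hcon⟩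
    have h2 : |pμ θ₀| ≤ |pμ θ| := hmin h1
    linarith

/-! ### Normalisation -/

theorem sq_le_of {a b : ℝ} (h : |a| < b) : a ^ 2 ≤ b ^ 2 := by
  have := abs_lt.1 h
  nlinarith

/-- The normalised parameter of a configuration. -/
theorem normalise {O : Fin 3 → V ℝ} (hO : Rotn O) {μ e s t1 : ℝ} {r d : V ℝ} {G : V6 ℝ}
    (hμ : |μ| ≤ 1) (h1 : dt r (![0, 0, 1] + d) = 0)
    (h2 : dt (![0, 0, 1] + d) (![0, 0, 1] + d) = 1) (ht1 : t1 ≤ 1 / 16)
    (he : |e| < t1) (hr : ∀ j, |r j| < t1) (hd : ∀ j, |d j| < t1) (hs : |s| < t1)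
    (hg : ∀ j, |G.1 j| < t1) (hh : ∀ j, |G.2 j| < t1)
    (hne : ¬ (e = 0 ∧ r = 0 ∧ d = 0 ∧ s = 0 ∧ G = 0)) :
    ∃ t : ℝ, 0 < t ∧ t < 4 * t1 ∧ ∃ θ ∈ KK1, pO θ = O ∧ pμ θ = μ ∧ e = t * pe θ ∧
      r = (fun j => t * pr' θ j) ∧ ![0, -s, 0] = (fun j => t * (![0, -ps θ, 0] : V ℝ) j) ∧
      ![0, 0, 1] + d = (fun j => (![0, 0, 1] : V ℝ) j + t * pd θ j) ∧
      G = (fun j => t * pg θ j, fun j => t * ph θ j) := by
  set N := e ^ 2 + dt r r + dt d d + s ^ 2 + dt G.1 G.1 + dt G.2 G.2 with hN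
  have ht0 : 0 < t1 := (abs_nonneg e).trans_lt he
  have q1 := mul_self_nonneg (r 0)
  have q2 := mul_self_nonneg (r 1)
  have q3 := mul_self_nonneg (r 2)
  have q4 := mul_self_nonneg (d 0)
  have q5 := mul_self_nonneg (d 1)
  have q6 := mul_self_nonneg (d 2)
  have q7 := mul_self_nonneg (G.1 0)
  have q8 := mul_self_nonneg (G.1 1)
  have q9 := mul_self_nonneg (G.1 2)
  have q10 := mul_self_nonneg (G.2 0)
  have q11 := mul_self_nonneg (G.2 1)
  have q12 := mul_self_nonneg (G.2 2)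
  have q13 := sq_nonneg e
  have q14 := sq_nonneg s
  have hN0 : 0 ≤ N := by
    rw [hN]; simp only [dt]; positivity
  have hNpos : 0 < N := by
    rcases hN0.lt_or_eq with h | h
    · exact h
    · exfalso
      apply hne
      rw [hN] at h
      simp only [dt] at h
      have z : ∀ a : ℝ, a * a = 0 → a = 0 := fun a ha => mul_self_eq_zero.1 ha
      refine ⟨?_, V_ext ?_ ?_ ?_, V_ext ?_ ?_ ?_, ?_, Prod.ext (V_ext ?_ ?_ ?_) (V_ext ?_ ?_ ?_)⟩
      · exact pow_eq_zero_iff two_ne_zero |>.1 (le_antisymm (by linarith) q13)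
      all_goals exact z _ (le_antisymm (by linarith) (mul_self_nonneg _))
  have hNlt : N < 16 * t1 ^ 2 := by
    have b : ∀ a : ℝ, |a| < t1 → a * a ≤ t1 ^ 2 := fun a ha => by
      have := sq_le_of ha
      nlinarith
    have c0 := sq_le_of he
    have c1 := sq_le_of hs
    have := b _ (hr 0)
    have := b _ (hr 1)
    have := b _ (hr 2)
    have := b _ (hd 0)
    have := b _ (hd 1)
    have := b _ (hd 2)
    have := b _ (hg 0)
    have := b _ (hg 1)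
    have := b _ (hg 2)
    have := b _ (hh 0)
    have := b _ (hh 1)
    have := b _ (hh 2)
    have hp : 0 < t1 ^ 2 := by positivity
    rw [hN]
    simp only [dt]
    linarith
  set t := Real.sqrt N with ht
  have htpos : 0 < t := Real.sqrt_pos.2 hNpos
  have ht2 : t ^ 2 = N := Real.sq_sqrt hN0
  have htlt : t < 4 * t1 := by
    refine lt_of_pow_lt_pow_left₀ 2 (by positivity) ?_
    rw [ht2]
    calc N < 16 * t1 ^ 2 := hNlt
      _ = (4 * t1) ^ 2 := by ring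
  have htq : t ≤ 1 / 4 := by linarith
  have htt : t ^ 2 ≤ 1 / 4 * t := by
    rw [pow_two]
    exact mul_le_mul_of_nonneg_right htq htpos.le
  have htne : t ≠ 0 := htpos.ne'
  refine ⟨t, htpos, htlt, (O, μ, e / t, fun j => r j / t, fun j => d j / t, s / t,
    fun j => G.1 j / t, fun j => G.2 j / t), ⟨hO, ?_, ?_, ?_, hμ⟩, rfl, rfl, ?_, ?_, ?_, ?_, ?_⟩
  · simp only [nrm2, pe, pr', pd, ps, pg, ph, dt]
    have e1 : ∀ a : ℝ, a / t * (a / t) = a * a / N := fun a => by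
      rw [← ht2]; field_simp
    have e2 : ∀ a : ℝ, (a / t) ^ 2 = a ^ 2 / N := fun a => by
      rw [← ht2]; field_simp
    simp only [e1, e2, ← add_div]
    have e3 : e ^ 2 + (r 0 * r 0 + r 1 * r 1 + r 2 * r 2) + (d 0 * d 0 + d 1 * d 1 + d 2 * d 2) +
        s ^ 2 + (G.1 0 * G.1 0 + G.1 1 * G.1 1 + G.1 2 * G.1 2) +
        (G.2 0 * G.2 0 + G.2 1 * G.2 1 + G.2 2 * G.2 2) = N := rfl
    rw [e3, div_self hNpos.ne']
  · show |r 2 / t| ≤ 1 / 4
    rw [abs_div, abs_of_pos htpos, div_le_iff₀ htpos]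
    have hr2 : r 2 = -(r 0 * d 0 + r 1 * d 1 + r 2 * d 2) := by
      simp [dt] at h1
      linarith
    have hb : |r 2| ≤ t ^ 2 := by
      rw [ht2, hN, abs_le]
      simp only [dt]
      constructor
      · linarith [sq_nonneg (r 0 - d 0), sq_nonneg (r 1 - d 1), sq_nonneg (r 2 - d 2)]
      · linarith [sq_nonneg (r 0 + d 0), sq_nonneg (r 1 + d 1), sq_nonneg (r 2 + d 2)]
    linarith
  · show |d 2 / t| ≤ 1 / 4
    rw [abs_div, abs_of_pos htpos, div_le_iff₀ htpos]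
    have hd2 : d 2 = -((d 0 * d 0 + d 1 * d 1 + d 2 * d 2) / 2) := by
      simp [dt] at h2
      linarith
    have hb : |d 2| ≤ t ^ 2 := by
      rw [ht2, hN, abs_le]
      simp only [dt]
      constructor <;> linarith
    linarith
  · show e = t * (e / t)
    field_simp
  · funext j
    show r j = t * (r j / t)
    field_simp
  · refine V_ext ?_ ?_ ?_
    · simp
    · show -s = t * -(s / t)
      field_simp
    · simp
  · funext j
    show (![0, 0, 1] : V ℝ) j + d j = (![0, 0, 1] : V ℝ) j + t * (d j / t)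
    field_simp
  · refine Prod.ext (funext fun j => ?_) (funext fun j => ?_)
    · show G.1 j = t * (G.1 j / t)
      field_simp
    · show G.2 j = t * (G.2 j / t)
      field_simp

end LocH

open LocH

/-- **LOC0**: the untwisted polynomial is positive near the zero set, for all small anisotropies. -/
theorem loc0_pos : ∃ t0 > 0, ∀ μ : ℝ, |μ| < t0 → ∀ O : Fin 3 → V ℝ, Rotn O → ∀ (r d : V ℝ) (s : ℝ)
    (G : V6 ℝ), dt r (![0, 0, 1] + d) = 0 → dt (![0, 0, 1] + d) (![0, 0, 1] + d) = 1 →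
    (∀ j, |r j| < t0) → (∀ j, |d j| < t0) → |s| < t0 → (∀ j, |G.1 j| < t0) →
    (∀ j, |G.2 j| < t0) → ¬ (r = 0 ∧ d = 0 ∧ s = 0 ∧ G = 0) →
    0 < PP (Dr μ 0 0 O) ![1, 0, 0] (![0, 0, 1], r) (![0, -s, 0], ![0, 0, 1] + d) G := by
  obtain ⟨μ1, hμ1, hμ1', hpos⟩ := exists_mu
  have hS : IsCompact (KK1 ∩ {θ | |pμ θ| ≤ μ1 ∧ pe θ = 0}) :=
    isCompact_KK1.inter_right
      ((isClosed_le cμ.abs continuous_const).inter (isClosed_eq ce continuous_const))
  obtain ⟨t0, ht0, h⟩ := main_transfer hS (fun θ hθ => hθ.1.1) (q := fun _ => 0) continuous_const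
    (fun θ hθ => by rw [hθ.2.2]; ring) (fun θ hθ => hpos θ hθ.1 hθ.2.1)
  refine ⟨min (min μ1 (1 / 16)) (t0 / 4), by positivity, ?_⟩
  intro μ hμ O hO r d s G h1 h2 hr hd hs hg hh hne
  set t1 := min (min μ1 (1 / 16)) (t0 / 4) with ht1
  have ht1p : 0 < t1 := by positivity
  have hle1 : t1 ≤ μ1 := (min_le_left _ _).trans (min_le_left _ _)
  have hle2 : t1 ≤ 1 / 16 := (min_le_left _ _).trans (min_le_right _ _)
  have hle3 : t1 ≤ t0 / 4 := min_le_right _ _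
  obtain ⟨t, ht, ht', θ, hθ, e1, e2, e3, e4, e5, e6, e7⟩ := normalise hO (e := 0) (μ := μ)
    (by linarith) h1 h2 hle2 (by rw [abs_zero]; exact ht1p) hr hd hs hg hh
    (fun hc => hne ⟨hc.2.1, hc.2.2.1, hc.2.2.2.1, hc.2.2.2.2⟩)
  have he : pe θ = 0 := by
    rcases mul_eq_zero.1 e3.symm with h | h
    · exact absurd h ht.ne'
    · exact h
  have := h θ ⟨hθ, by rw [mem_ofPred_eq, e2]; exact ⟨by linarith, he⟩⟩ t ht (by linarith)
  rw [e1, e2, he, mul_zero, mul_zero, ← e4, ← e5, ← e6, ← e7] at this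
  exact this

/-- **LOC1**: for fixed small anisotropy `μ > 0` the full polynomial with `κ = ε²/(128 μ²)` is
positive near the zero set for all small twists `ε > 0`. -/
theorem loc1_pos : ∃ μ1 > 0, ∀ μ : ℝ, 0 < μ → μ < μ1 → ∃ t0 > 0, ∀ ε : ℝ, 0 < ε → ε < t0 →
    ∀ O : Fin 3 → V ℝ, Rotn O → ∀ (r d : V ℝ) (s : ℝ)
    (G : V6 ℝ), dt r (![0, 0, 1] + d) = 0 → dt (![0, 0, 1] + d) (![0, 0, 1] + d) = 1 →
    (∀ j, |r j| < t0) → (∀ j, |d j| < t0) → |s| < t0 → (∀ j, |G.1 j| < t0) →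
    (∀ j, |G.2 j| < t0) →
    0 < PP (Dr μ (ε ^ 2 / (128 * μ ^ 2)) ε O) ![1, 0, 0] (![0, 0, 1], r)
      (![0, -s, 0], ![0, 0, 1] + d) G := by
  obtain ⟨μ1, hμ1, hμ1', hpos⟩ := exists_mu
  refine ⟨μ1, hμ1, fun μ hμ hμ' => ?_⟩
  have hS : IsCompact (KK1 ∩ {θ | pμ θ = μ}) :=
    isCompact_KK1.inter_right (isClosed_eq cμ continuous_const)
  have hq : Continuous fun θ : Th => pe θ ^ 2 / (128 * μ ^ 2) := by
    have := ce
    fun_prop
  obtain ⟨t0, ht0, h⟩ := main_transfer hS (fun θ hθ => hθ.1.1)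
    (q := fun θ => pe θ ^ 2 / (128 * μ ^ 2)) hq
    (fun θ hθ => by
      have : pμ θ = μ := hθ.2
      rw [this]
      field_simp) (fun θ hθ => hpos θ hθ.1 (by
      have : pμ θ = μ := hθ.2
      rw [this, abs_of_pos hμ]
      exact hμ'.le))
  refine ⟨min (1 / 16) (t0 / 4), by positivity, ?_⟩
  intro ε hε hε' O hO r d s G h1 h2 hr hd hs hg hh
  set t1 := min (1 / 16) (t0 / 4) with ht1
  have ht1p : 0 < t1 := by positivity
  have hle2 : t1 ≤ 1 / 16 := min_le_left _ _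
  have hle3 : t1 ≤ t0 / 4 := min_le_right _ _
  obtain ⟨t, ht, ht', θ, hθ, e1, e2, e3, e4, e5, e6, e7⟩ := normalise hO (e := ε) (μ := μ)
    (by rw [abs_of_pos hμ]; linarith) h1 h2 hle2 (by rw [abs_of_pos hε]; exact hε') hr hd hs hg hh
    (fun hc => hε.ne' hc.1)
  have := h θ ⟨hθ, e2⟩ t ht (by linarith)
  have e8 : t ^ 2 * (pe θ ^ 2 / (128 * μ ^ 2)) = ε ^ 2 / (128 * μ ^ 2) := by
    rw [e3]; ring
  rw [e8, e1, e2, ← e3, ← e4, ← e5, ← e6, ← e7] at this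
  exact this

end HopfPP
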